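import Pool.Agent.Helper42.DB.Goals2

set_option autoImplicit false

/-!
# Packet OPEN of MP_48f005_an (helper65)
-/

namespace Pool.Agent.Helper42.DB.PkOPEN

open Set Filter Topology

/-- The convex hull of a compact planar set is compact. -/
lemma isCompact_hull {s : Set ℂ} (hs : IsCompact s) : IsCompact (convexHull ℝ s) := by
  rcases s.eq_empty_or_nonempty with rfl | ⟨z0, hz0⟩
  · simp
  have h1 : IsCompact ((stdSimplex ℝ (Fin 3)) ×ˢ (Set.univ.pi fun _ : Fin 3 => s)) :=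
    (isCompact_stdSimplex ℝ (Fin 3)).prod (isCompact_univ_pi fun _ => hs)
  have hf : Continuous (fun x : (Fin 3 → ℝ) × (Fin 3 → ℂ) => ∑ i, x.1 i • x.2 i) := by
    fun_prop
  have h2 : convexHull ℝ s = (fun x : (Fin 3 → ℝ) × (Fin 3 → ℂ) => ∑ i, x.1 i • x.2 i) ''
      ((stdSimplex ℝ (Fin 3)) ×ˢ (Set.univ.pi fun _ : Fin 3 => s)) := by
    apply Set.Subset.antisymm
    · intro x hx
      obtain ⟨ι, hι, z, w, hz, hai, hw, hw1, hx2⟩ := eq_pos_convex_span_of_mem_convexHull hx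
      have hc : Fintype.card ι ≤ 3 := by
        have h3 := hai.card_le_finrank_succ
        have h4 : Module.finrank ℝ (vectorSpan ℝ (Set.range z)) ≤ Module.finrank ℝ ℂ :=
          Submodule.finrank_le _
        rw [Complex.finrank_real_complex] at h4
        omega
      let e : ι → Fin 3 := fun i => Fin.castLE hc (Fintype.equivFin ι i)
      have he : Function.Injective e := by
        intro i j hij
        have := Fin.castLE_injective hc hij
        exact (Fintype.equivFin ι).injective this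
      refine ⟨(Function.extend e w 0, Function.extend e z fun _ => z0), ⟨⟨?_, ?_⟩, ?_⟩, ?_⟩
      · intro j
        by_cases hj : ∃ i, e i = j
        · obtain ⟨i, rfl⟩ := hj
          simp only [he.extend_apply]
          exact (hw i).le
        · simp only [Function.extend_apply' _ _ _ hj]
          exact le_refl _
      · rw [← hw1]
        symm
        apply Fintype.sum_of_injective e he
        · intro j hj
          have hj' : ¬ ∃ i, e i = j := by simpa using hj
          simp only [Function.extend_apply' _ _ _ hj']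
          rfl
        · intro i
          simp only [he.extend_apply]
      · intro j _
        by_cases hj : ∃ i, e i = j
        · obtain ⟨i, rfl⟩ := hj
          simp only [he.extend_apply]
          exact hz ⟨i, rfl⟩
        · simp only [Function.extend_apply' _ _ _ hj]
          exact hz0
      · rw [← hx2]
        symm
        apply Fintype.sum_of_injective e he
        · intro j hj
          have hj' : ¬ ∃ i, e i = j := by simpa using hj
          simp only [Function.extend_apply' _ _ _ hj']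
          simp
        · intro i
          simp only [he.extend_apply]
    · rintro _ ⟨⟨w, z⟩, ⟨⟨hw0, hw1⟩, hz⟩, rfl⟩
      exact (convex_convexHull ℝ s).sum_mem (fun i _ => hw0 i) hw1
        (fun i _ => subset_convexHull ℝ s (hz i (Set.mem_univ _)))
  rw [h2]
  exact h1.image hf

lemma ee_add (a b : ℝ) : ee (a + b) = ee a * ee b := by
  apply Complex.ext
  · simp [Real.cos_add]
  · simp [Real.sin_add]; ring

lemma ee_neg_mul (a : ℝ) : ee (-a) * ee a = 1 := by
  rw [← ee_add]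
  apply Complex.ext <;> simp

lemma polar (v : ℂ) : v = ‖v‖ • ee v.arg := by
  apply Complex.ext
  · simp only [Complex.smul_re, ee_re, smul_eq_mul]
    exact (Complex.norm_mul_cos_arg v).symm
  · simp only [Complex.smul_im, ee_im, smul_eq_mul]
    exact (Complex.norm_mul_sin_arg v).symm

/-- Directions close to a given one have close angles. -/
lemma angle {L θ0 ε : ℝ} (hL : 0 < L) (hε : 0 < ε) : ∃ η : ℝ, 0 < η ∧ ∀ v : ℂ,
    ‖v - L • ee θ0‖ < η → v ≠ 0 ∧ ∃ θ : ℝ, |θ - θ0| < ε ∧ v = ‖v‖ • ee θ := by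
  have h1 : ContinuousAt Complex.arg (L : ℂ) :=
    Complex.continuousAt_arg (Complex.ofReal_mem_slitPlane.mpr hL)
  obtain ⟨η, hη, h2⟩ := Metric.continuousAt_iff.mp h1 ε hε
  refine ⟨min η L, lt_min hη hL, fun v hv => ?_⟩
  have hv0 : v ≠ 0 := by
    intro h0
    rw [h0, zero_sub, norm_neg, norm_smul, norm_ee, mul_one, Real.norm_eq_abs, abs_of_pos hL] at hv
    exact absurd (lt_of_lt_of_le hv (min_le_right _ _)) (lt_irrefl _)
  refine ⟨hv0, θ0 + (ee (-θ0) * v).arg, ?_, ?_⟩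
  · have h3 : dist (ee (-θ0) * v) (L : ℂ) < η := by
      have h4 : ee (-θ0) * v - (L : ℂ) = ee (-θ0) * (v - L • ee θ0) := by
        rw [mul_sub, Complex.real_smul, mul_left_comm, ee_neg_mul, mul_one]
      rw [dist_eq_norm, h4, norm_mul, norm_ee, one_mul]
      exact lt_of_lt_of_le hv (min_le_left _ _)
    have h5 := h2 h3
    rw [Complex.arg_ofReal_of_nonneg hL.le, Real.dist_eq, sub_zero] at h5
    simpa using h5
  · have h6 := polar (ee (-θ0) * v)
    rw [norm_mul, norm_ee, one_mul] at h6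
    rw [ee_add, ← mul_smul_comm, ← h6, ← mul_assoc, mul_comm (ee θ0), ee_neg_mul, one_mul]

lemma unif (P : ℕ → ℝ → Prop) (hP : ∀ k δ δ', P k δ → 0 < δ' → δ' ≤ δ → P k δ') (n : ℕ)
    (h : ∀ k < n, ∃ δ : ℝ, 0 < δ ∧ P k δ) : ∃ δ : ℝ, 0 < δ ∧ ∀ k < n, P k δ := by
  induction n with
  | zero => exact ⟨1, one_pos, fun k hk => absurd hk (by omega)⟩
  | succ n ih =>
    obtain ⟨δ1, h1, h1'⟩ := ih fun k hk => h k (by omega)
    obtain ⟨δ2, h2, h2'⟩ := h n (by omega)
    refine ⟨min δ1 δ2, lt_min h1 h2, fun k hk => ?_⟩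
    rcases Nat.lt_succ_iff_lt_or_eq.mp hk with h | rfl
    · exact hP _ _ _ (h1' k h) (lt_min h1 h2) (min_le_left _ _)
    · exact hP _ _ _ h2' (lt_min h1 h2) (min_le_right _ _)

lemma eq_of_ee_eq {a b : ℝ} (h : ee a = ee b) (hab : |a - b| < 2 * Real.pi) : a = b := by
  have h1 := (ee_eq_ee_iff a b).mp h
  rw [abs_lt] at hab
  have h2 := (Real.cos_eq_one_iff_of_lt_of_lt hab.1 hab.2).mp h1
  linarith

lemma ee_neg_shift {a b : ℝ} (h : ee a = -ee b) (d : ℝ) : ee (a + d) = -ee (b + d) := by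
  rw [ee_add, ee_add, h, neg_mul]

variable {S : Sys}

lemma isCompact_K (i : S.ι) : IsCompact (S.K i) :=
  isCompact_hull (isCompact_Icc.image (S.crv i).continuous)

lemma pos_mem_K {x : St S} (h : x.Ok) : x.pos ∈ S.K x.i :=
  subset_convexHull ℝ _ ⟨x.u, Ioo_subset_Icc_self h.1, rfl⟩

/-- Length of a broken line. -/
noncomputable def FF (n : ℕ) (p : ℕ → ℂ) : ℝ := ∑ k ∈ Finset.range n, ‖p (k + 1) - p k‖

lemma continuous_FF (n : ℕ) : Continuous (FF n) := by
  unfold FF
  apply continuous_finsetSum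
  intro k _
  exact ((continuous_apply (k + 1)).sub (continuous_apply k)).norm

/-- Competitors. -/
def TT (n : ℕ) (w : ℕ → S.ι) (P Q : ℂ) : Set (ℕ → ℂ) :=
  Set.univ.pi fun k => if k = 0 then {P} else if k < n then S.K (w k) else {Q}

lemma mem_TT {n : ℕ} {w : ℕ → S.ι} {P Q : ℂ} (hn : 0 < n) {p : ℕ → ℂ} (h : p ∈ TT n w P Q) :
    p 0 = P ∧ p n = Q ∧ ∀ k, 0 < k → k < n → p k ∈ S.K (w k) := by
  refine ⟨?_, ?_, fun k h0 hk => ?_⟩
  · have := h 0 (Set.mem_univ _)
    simpa using this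
  · have := h n (Set.mem_univ _)
    simpa [hn.ne'] using this
  · have := h k (Set.mem_univ _)
    simpa [h0.ne', hk] using this

lemma exists_min {n : ℕ} {w : ℕ → S.ι} {P Q : ℂ} (q : ℕ → ℂ) (hq : q ∈ TT n w P Q) :
    ∃ p ∈ TT n w P Q, ∀ q ∈ TT n w P Q, FF n p ≤ FF n q := by
  have h1 : IsCompact (TT n w P Q) := by
    apply isCompact_univ_pi
    intro k
    split_ifs
    · exact isCompact_singleton
    · exact isCompact_K _
    · exact isCompact_singleton
  exact h1.exists_isMinOn ⟨q, hq⟩ (continuous_FF n).continuousOn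

/-- Changing one point of the broken line. -/
lemma FF_update {n k : ℕ} (hk : k + 1 < n) (p : ℕ → ℂ) (q : ℂ) :
    FF n (Function.update p (k + 1) q) - FF n p =
      (‖q - p k‖ + ‖p (k + 2) - q‖) - (‖p (k + 1) - p k‖ + ‖p (k + 2) - p (k + 1)‖) := by
  unfold FF
  rw [← Finset.sum_sub_distrib]
  have h1 : ({k, k + 1} : Finset ℕ) ⊆ Finset.range n := by
    intro j hj
    simp only [Finset.mem_insert, Finset.mem_singleton] at hj
    rw [Finset.mem_range]; omega
  rw [← Finset.sum_subset h1]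
  · rw [Finset.sum_pair (by omega)]
    have e1 : Function.update p (k + 1) q (k + 1) = q := Function.update_self _ _ _
    have e2 : Function.update p (k + 1) q k = p k := Function.update_of_ne (by omega) _ _
    have e3 : Function.update p (k + 1) q (k + 1 + 1) = p (k + 2) :=
      Function.update_of_ne (by omega) _ _
    rw [e1, e2, e3]
    ring
  · intro j _ hj
    simp only [Finset.mem_insert, Finset.mem_singleton, not_or] at hj
    have e1 : Function.update p (k + 1) q (j + 1) = p (j + 1) :=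
      Function.update_of_ne (by omega) _ _
    have e2 : Function.update p (k + 1) q j = p j := Function.update_of_ne (by omega) _ _
    rw [e1, e2, sub_self]

/-- Moving the two ends of a broken line. -/
lemma FF_ends {n : ℕ} (hn : 0 < n) (z q : ℕ → ℂ) (hq : ∀ k, 0 < k → k < n → q k = z k) :
    FF n q ≤ FF n z + ‖q 0 - z 0‖ + ‖q n - z n‖ := by
  obtain ⟨m, rfl⟩ : ∃ m, n = m + 1 := ⟨n - 1, by omega⟩
  have h1 : FF (m + 1) q ≤ ∑ k ∈ Finset.range (m + 1),
      (‖z (k + 1) - z k‖ + (‖q (k + 1) - z (k + 1)‖ + ‖q k - z k‖)) := by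
    unfold FF
    apply Finset.sum_le_sum
    intro k _
    have h2 : q (k + 1) - q k = (z (k + 1) - z k) + ((q (k + 1) - z (k + 1)) - (q k - z k)) := by
      ring
    rw [h2]
    exact (norm_add_le _ _).trans (add_le_add_right (norm_sub_le _ _) _)
  rw [Finset.sum_add_distrib, Finset.sum_add_distrib] at h1
  have h3 : ∑ k ∈ Finset.range (m + 1), ‖q (k + 1) - z (k + 1)‖ = ‖q (m + 1) - z (m + 1)‖ := by
    rw [Finset.sum_range_succ, Finset.sum_eq_zero, zero_add]
    intro k hk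
    rw [Finset.mem_range] at hk
    rw [hq (k + 1) (by omega) (by omega), sub_self, norm_zero]
  have h4 : ∑ k ∈ Finset.range (m + 1), ‖q k - z k‖ = ‖q 0 - z 0‖ := by
    rw [Finset.sum_range_succ', Finset.sum_eq_zero, zero_add]
    intro k hk
    rw [Finset.mem_range] at hk
    rw [hq (k + 1) (by omega) (by omega), sub_self, norm_zero]
  rw [h3, h4] at h1
  unfold FF at h1 ⊢
  linarith

/-- The minimiser is close to the trajectory. -/
lemma close (hκ : 0 < S.κ) (hMINI : G_MINI S) {n : ℕ} {w : ℕ → S.ι} {z : ℕ → St S} (hn : 0 < n)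
    (hz : Cyl n w z) {P Q : ℂ} {p : ℕ → ℂ} (hp : p ∈ TT n w P Q)
    (hmin : ∀ q ∈ TT n w P Q, FF n p ≤ FF n q) {k : ℕ} (hk0 : 0 < k) (hkn : k < n) :
    S.κ * (Real.cos (z k).φ * ‖p k - (z k).pos‖ ^ 2) ≤
      ‖P - (z 0).pos‖ + ‖Q - (z n).pos‖ := by
  obtain ⟨hp0, hpn, hpK⟩ := mem_TT hn hp
  set q : ℕ → ℂ := fun k => if k = 0 then P else if k < n then (z k).pos else Q with hq
  have hqT : q ∈ TT n w P Q := by
    intro j _
    by_cases h0 : j = 0
    · simp [hq, h0]
    · by_cases hj : j < n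
      · have h1 := pos_mem_K (hz.1.1 j hj.le)
        rw [hz.2 j hj.le] at h1
        simpa [hq, h0, hj] using h1
      · simp [hq, h0, hj]
  have h1 := FF_ends hn (fun k => (z k).pos) q (by
    intro j h0 hj
    simp [hq, h0.ne', hj])
  have hq0 : q 0 = P := by simp [hq]
  have hqn : q n = Q := by simp [hq, hn.ne']
  rw [hq0, hqn] at h1
  have h2 := hmin q hqT
  have h3 := hMINI n w z hn hz p hpK
  have h4 : ∑ k ∈ Finset.range n, len (z k) (z (k + 1)) = FF n (fun k => (z k).pos) := rfl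
  have h5 : ∑ k ∈ Finset.range n, ‖p (k + 1) - p k‖ = FF n p := rfl
  rw [h4, h5, hp0, hpn] at h3
  have h6 : dt (ee (z 0).th) (P - (z 0).pos) ≤ ‖P - (z 0).pos‖ := by
    have := dt_le (ee (z 0).th) (P - (z 0).pos)
    rwa [norm_ee, one_mul] at this
  have h7 : dt (ee (z n).bk) (Q - (z n).pos) ≤ ‖Q - (z n).pos‖ := by
    have := dt_le (ee (z n).bk) (Q - (z n).pos)
    rwa [norm_ee, one_mul] at this
  have h8 : Real.cos (z k).φ * ‖p k - (z k).pos‖ ^ 2 ≤
      ∑ k ∈ Finset.Ioo 0 n, Real.cos (z k).φ * ‖p k - (z k).pos‖ ^ 2 := by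
    apply Finset.single_le_sum (f := fun k => Real.cos (z k).φ * ‖p k - (z k).pos‖ ^ 2)
    · intro j hj
      rw [Finset.mem_Ioo] at hj
      exact mul_nonneg (hz.1.1 j hj.2.le).cos_pos.le (sq_nonneg _)
    · exact Finset.mem_Ioo.mpr ⟨hk0, hkn⟩
  have h9 := mul_le_mul_of_nonneg_left h8 hκ.le
  linarith

/-- OPEN -/
theorem thm (S : Sys) : G_ARC S → G_MINI S → G_VARSUPP S → G_FOPEN S → G_OPEN S := by
  intro hARC hMINI hVS hFO n w z ε hn hz hε
  have hκ : 0 < S.κ := (hARC (w 0)).1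
  have hOk : ∀ k ≤ n, (z k).Ok := hz.1.1
  have hi : ∀ k ≤ n, (z k).i = w k := hz.2
  have hFl : ∀ k < n, Fl (z k) (z (k + 1)) := hz.1.2
  -- tolerance for the states
  obtain ⟨ε1, hε1, h1⟩ := unif (fun k δ => δ ≤ ε ∧ δ ≤ 1 ∧ S.a (w k) + δ < (z k).u ∧
      (z k).u + δ < S.b (w k) ∧ |(z k).φ| + δ < Real.pi / 2) (by
    rintro k δ δ' ⟨a1, a2, a3, a4, a5⟩ h0 hle
    exact ⟨by linarith, by linarith, by linarith, by linarith, by linarith⟩) (n + 1) (by
    intro k hk
    have hk' : k ≤ n := by omega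
    have b1 := (hOk k hk').1
    rw [hi k hk'] at b1
    have b2 := (hOk k hk').2
    refine ⟨min (min ε 1) (min (min (((z k).u - S.a (w k)) / 2) ((S.b (w k) - (z k).u) / 2))
      ((Real.pi / 2 - |(z k).φ|) / 2)), ?_, ?_, ?_, ?_, ?_, ?_⟩
    · refine lt_min (lt_min hε one_pos) (lt_min (lt_min ?_ ?_) ?_)
      · linarith [b1.1]
      · linarith [b1.2]
      · linarith
    · exact (min_le_left _ _).trans (min_le_left _ _)
    · exact (min_le_left _ _).trans (min_le_right _ _)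
    · have := (min_le_right (min ε 1) (min (min (((z k).u - S.a (w k)) / 2)
        ((S.b (w k) - (z k).u) / 2)) ((Real.pi / 2 - |(z k).φ|) / 2))).trans
          ((min_le_left _ _).trans (min_le_left _ _))
      linarith [b1.1]
    · have := (min_le_right (min ε 1) (min (min (((z k).u - S.a (w k)) / 2)
        ((S.b (w k) - (z k).u) / 2)) ((Real.pi / 2 - |(z k).φ|) / 2))).trans
          ((min_le_left _ _).trans (min_le_right _ _))
      linarith [b1.2]
    · have := (min_le_right (min ε 1) (min (min (((z k).u - S.a (w k)) / 2)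
        ((S.b (w k) - (z k).u) / 2)) ((Real.pi / 2 - |(z k).φ|) / 2))).trans (min_le_right _ _)
      linarith)
  -- flights are open
  obtain ⟨δ', hδ', h2⟩ := unif (fun k δ => ∀ u v : ℝ, |u - (z k).u| < δ → |v - (z (k + 1)).u| < δ →
      ∃ φ ψ : ℝ, |φ - (z k).φ| < ε1 ∧ |ψ - (z (k + 1)).φ| < ε1 ∧
        Fl (⟨w k, u, φ⟩ : St S) ⟨w (k + 1), v, ψ⟩) (by
    intro k δ δ' hP h0 hle u v hu hv
    exact hP u v (hu.trans_le hle) (hv.trans_le hle)) n (by
    intro k hk
    obtain ⟨δ, hδ, h⟩ := hFO (z k) (z (k + 1)) ε1 (hFl k hk) hε1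
    rw [hi k hk.le, hi (k + 1) hk] at h
    exact ⟨δ, hδ, h⟩)
  obtain ⟨ε2, hε2, hε2a, hε2b⟩ : ∃ ε2 : ℝ, 0 < ε2 ∧ ε2 ≤ δ' ∧ ε2 ≤ ε1 :=
    ⟨min δ' ε1, lt_min hδ' hε1, min_le_left _ _, min_le_right _ _⟩
  -- directions
  obtain ⟨η, hη, h3⟩ := unif (fun k η => ∀ v : ℂ,
      ‖v - len (z k) (z (k + 1)) • ee (z k).th‖ < η → v ≠ 0 ∧ ∃ θ : ℝ, |θ - (z k).th| < ε2 ∧
        v = ‖v‖ • ee θ) (by
    intro k δ δ' hP h0 hle v hv
    exact hP v (hv.trans_le hle)) n (by
    intro k hk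
    exact angle (hFl k hk).length.1 hε2)
  -- distances
  obtain ⟨τ, hτ, h4⟩ := unif (fun k τ => τ ≤ S.κ * (Real.cos (z k).φ * (η / 2) ^ 2) ∧ τ ≤ η / 2) (by
    rintro k δ δ' ⟨a1, a2⟩ h0 hle
    exact ⟨by linarith, by linarith⟩) (n + 1) (by
    intro k hk
    have c1 := (hOk k (by omega)).cos_pos
    refine ⟨min (S.κ * (Real.cos (z k).φ * (η / 2) ^ 2)) (η / 2), lt_min ?_ (by linarith),
      min_le_left _ _, min_le_right _ _⟩
    have : 0 < η / 2 := by linarith
    positivity)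
  have hc0 : ∃ δ0 : ℝ, 0 < δ0 ∧ ∀ x : ℝ, |x - (z 0).u| < δ0 →
      ‖S.g (w 0) x - (z 0).pos‖ < τ / 2 := by
    obtain ⟨δ0, hδ0, h⟩ := Metric.continuous_iff.mp (S.crv (w 0)).continuous (z 0).u (τ / 2)
      (by linarith)
    refine ⟨δ0, hδ0, fun x hx => ?_⟩
    have := h x (by rwa [Real.dist_eq])
    rw [dist_eq_norm] at this
    have e : (z 0).pos = S.g (w 0) (z 0).u := by rw [← hi 0 (by omega)]; rfl
    rw [e]; exact this
  have hcn : ∃ δ0 : ℝ, 0 < δ0 ∧ ∀ x : ℝ, |x - (z n).u| < δ0 →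
      ‖S.g (w n) x - (z n).pos‖ < τ / 2 := by
    obtain ⟨δ0, hδ0, h⟩ := Metric.continuous_iff.mp (S.crv (w n)).continuous (z n).u (τ / 2)
      (by linarith)
    refine ⟨δ0, hδ0, fun x hx => ?_⟩
    have := h x (by rwa [Real.dist_eq])
    rw [dist_eq_norm] at this
    have e : (z n).pos = S.g (w n) (z n).u := by rw [← hi n le_rfl]; rfl
    rw [e]; exact this
  obtain ⟨δ0, hδ0, hc0⟩ := hc0
  obtain ⟨δn, hδn, hcn⟩ := hcn
  refine ⟨min ε2 (min δ0 δn), lt_min hε2 (lt_min hδ0 hδn), fun x y hx hy => ?_⟩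
  have hx1 : |x - (z 0).u| < ε2 := hx.trans_le (min_le_left _ _)
  have hy1 : |y - (z n).u| < ε2 := hy.trans_le (min_le_left _ _)
  have hx2 := hc0 x (hx.trans_le ((min_le_right _ _).trans (min_le_left _ _)))
  have hy2 := hcn y (hy.trans_le ((min_le_right _ _).trans (min_le_right _ _)))
  -- the minimiser
  have hne : (fun k => if k = 0 then S.g (w 0) x else if k < n then (z k).pos else S.g (w n) y) ∈
      TT n w (S.g (w 0) x) (S.g (w n) y) := by
    intro j _
    by_cases h0 : j = 0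
    · simp [h0]
    · by_cases hj : j < n
      · have h1 := pos_mem_K (hOk j hj.le)
        rw [hi j hj.le] at h1
        simpa [h0, hj] using h1
      · simp [h0, hj]
  obtain ⟨p, hp, hmin⟩ := exists_min _ hne
  obtain ⟨hp0, hpn, hpK⟩ := mem_TT hn hp
  have hcl : ∀ k ≤ n, ‖p k - (z k).pos‖ < η / 2 := by
    intro k hk
    have ht := (h4 k (by omega)).2
    rcases Nat.eq_zero_or_pos k with rfl | hk0
    · rw [hp0]; linarith
    rcases hk.eq_or_lt with rfl | hkn
    · rw [hpn]; linarith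
    by_contra hcon
    have hcon' : η / 2 ≤ ‖p k - (z k).pos‖ := not_lt.mp hcon
    have d1 := close hκ hMINI hn hz hp hmin hk0 hkn
    have d2 : (η / 2) ^ 2 ≤ ‖p k - (z k).pos‖ ^ 2 := by
      have : 0 < η / 2 := by linarith
      gcongr
    have d3 := mul_le_mul_of_nonneg_left (mul_le_mul_of_nonneg_left d2
      (hOk k hk).cos_pos.le) hκ.le
    linarith [(h4 k (by omega)).1]
  have hang : ∀ k < n, p (k + 1) - p k ≠ 0 ∧ ∃ θ : ℝ, |θ - (z k).th| < ε2 ∧
      p (k + 1) - p k = ‖p (k + 1) - p k‖ • ee θ := by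
    intro k hk
    apply h3 k hk
    have e1 := (hFl k hk).length.2
    have e2 : p (k + 1) - p k - len (z k) (z (k + 1)) • ee (z k).th =
        (p (k + 1) - (z (k + 1)).pos) - (p k - (z k).pos) := by
      have e3 : (z (k + 1)).pos = (z k).pos + len (z k) (z (k + 1)) • ee (z k).th := e1
      rw [e3]; ring
    rw [e2]
    have := norm_sub_le (p (k + 1) - (z (k + 1)).pos) (p k - (z k).pos)
    linarith [hcl k hk.le, hcl (k + 1) hk]
  have hang2 : ∀ k : ℕ, ∃ θ : ℝ, k < n → |θ - (z k).th| < ε2 ∧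
      p (k + 1) - p k = ‖p (k + 1) - p k‖ • ee θ := by
    intro k
    by_cases hk : k < n
    · obtain ⟨_, θ, hθ⟩ := hang k hk
      exact ⟨θ, fun _ => hθ⟩
    · exact ⟨0, fun h => absurd h hk⟩
  choose θ hθ using hang2
  obtain ⟨β, hβ⟩ : ∃ β : ℕ → ℝ, ∀ k, β (k + 1) = (z (k + 1)).bk + (θ k - (z k).th) :=
    ⟨fun k => (z k).bk + (θ (k - 1) - (z (k - 1)).th), fun k => rfl⟩
  have hβe : ∀ k < n, ee (β (k + 1)) = -ee (θ k) := by
    intro k hk
    have e1 : ee (z (k + 1)).bk = -ee (z k).th := by rw [(hFl k hk).2.2.1, neg_neg]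
    have e2 := ee_neg_shift e1 (θ k - (z k).th)
    rw [hβ, e2]
    congr 2; ring
  obtain ⟨U, hU0, hUn, hUm⟩ : ∃ U : ℕ → ℝ, U 0 = x ∧ U n = y ∧
      ∀ k, k + 1 < n → U (k + 1) = (θ (k + 1) + β (k + 1)) / 2 :=
    ⟨fun k => if k = 0 then x else if k < n then (θ k + β k) / 2 else y, by simp,
      by simp [hn.ne'], fun k hk => by simp [hk]⟩
  have hUc : ∀ k ≤ n, |U k - (z k).u| < ε2 := by
    intro k hk
    rcases Nat.eq_zero_or_pos k with rfl | hk0
    · rw [hU0]; exact hx1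
    rcases hk.eq_or_lt with rfl | hkn
    · rw [hUn]; exact hy1
    obtain ⟨j, rfl⟩ : ∃ j, k = j + 1 := ⟨k - 1, by omega⟩
    have e1 := abs_lt.mp (hθ (j + 1) hkn).1
    have e2 := abs_lt.mp (hθ j (by omega)).1
    have e3 : (z (j + 1)).th = (z (j + 1)).u + (z (j + 1)).φ := rfl
    have e4 : (z (j + 1)).bk = (z (j + 1)).u - (z (j + 1)).φ := rfl
    rw [hUm j hkn, hβ, e4, abs_lt]
    rw [e3] at e1
    constructor <;> linarith [e1.1, e1.2, e2.1, e2.2]
  have hUp : ∀ k ≤ n, p k = S.g (w k) (U k) := by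
    intro k hk
    rcases Nat.eq_zero_or_pos k with rfl | hk0
    · rw [hU0, hp0]
    rcases hk.eq_or_lt with rfl | hkn
    · rw [hUn, hpn]
    obtain ⟨j, rfl⟩ : ∃ j, k = j + 1 := ⟨k - 1, by omega⟩
    have hj : j < n := by omega
    have g1 := h1 (j + 1) (by omega)
    have g2 := abs_lt.mp (hUc (j + 1) hk)
    have g3 : p (j + 1) - p j ≠ 0 := (hang j hj).1
    have g4 : p (j + 1 + 1) - p (j + 1) ≠ 0 := (hang (j + 1) hkn).1
    have e1 := abs_lt.mp (hθ (j + 1) hkn).1
    have e2 := abs_lt.mp (hθ j hj).1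
    have e3 : (z (j + 1)).th = (z (j + 1)).u + (z (j + 1)).φ := rfl
    have e4 : (z (j + 1)).bk = (z (j + 1)).u - (z (j + 1)).φ := rfl
    have e5 := hUm j hkn
    have e6 := hβ j
    rw [e4] at e6
    rw [e3] at e1
    refine hVS (w (j + 1)) (p (j + 1)) (p j) (p (j + 1 + 1)) (U (j + 1)) (θ (j + 1) - U (j + 1))
      (hpK _ hk0 hkn) (fun h => g3 (sub_eq_zero.mpr h)) (fun h => g4 (sub_eq_zero.mpr h.symm))
      ?_ ?_ ?_ ?_ ?_
    · intro q hq
      have hq' : Function.update p (j + 1) q ∈ TT n w (S.g (w 0) x) (S.g (w n) y) := by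
        intro l _
        by_cases hl : l = j + 1
        · subst hl
          simpa [hkn] using hq
        · rw [Function.update_of_ne hl]
          exact hp l (Set.mem_univ _)
      have f1 := hmin _ hq'
      have f2 := FF_update hkn p q
      have f3 : ‖p (j + 2) - p (j + 1)‖ = ‖p (j + 1 + 1) - p (j + 1)‖ := rfl
      have f4 : ‖p (j + 2) - q‖ = ‖p (j + 1 + 1) - q‖ := rfl
      rw [f3, f4] at f2
      linarith
    · constructor <;> linarith [g1.2.2.1, g1.2.2.2.1, g2.1, g2.2]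
    · have k1 : |θ (j + 1) - U (j + 1)| < Real.pi / 2 := by
        have k2 := abs_le.mp (le_refl |(z (j + 1)).φ|)
        rw [abs_lt]
        constructor <;> linarith [g1.2.2.2.2, g1.2.1, k2.1, k2.2, e1.1, e1.2, e2.1, e2.2]
      exact Real.cos_pos_of_mem_Ioo ⟨by linarith [(abs_lt.mp k1).1], (abs_lt.mp k1).2⟩
    · have k1 := (hθ (j + 1) hkn).2
      have k2 : U (j + 1) + (θ (j + 1) - U (j + 1)) = θ (j + 1) := by ring
      rw [k2]; exact k1
    · have k1 := (hθ j hj).2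
      have k2 : U (j + 1) - (θ (j + 1) - U (j + 1)) = β (j + 1) := by rw [e5]; ring
      rw [k2, hβe j hj, norm_sub_rev, smul_neg, ← k1]; ring
  obtain ⟨Ps, hPs, hPsn⟩ : ∃ Ps : ℕ → ℝ, (∀ k < n, Ps k = θ k - U k) ∧ Ps n = U n - β n :=
    ⟨fun k => if k < n then θ k - U k else U k - β k, fun k hk => by simp [hk], by simp⟩
  have hPs2 : ∀ k < n, Ps (k + 1) = U (k + 1) - β (k + 1) := by
    intro k hk
    rcases (Nat.succ_le_of_lt hk).eq_or_lt with h | h
    · rw [Nat.succ_eq_add_one] at h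
      rw [h]; exact hPsn
    · rw [hPs _ h, hUm k h]; ring
  have hfl : ∀ k < n, Fl (⟨w k, U k, Ps k⟩ : St S) ⟨w (k + 1), U (k + 1), Ps (k + 1)⟩ ∧
      |Ps k - (z k).φ| < ε1 ∧ |Ps (k + 1) - (z (k + 1)).φ| < ε1 := by
    intro k hk
    obtain ⟨φ, ψ, hφ, hψ, hF⟩ := h2 k hk (U k) (U (k + 1))
      ((hUc k hk.le).trans_le hε2a) ((hUc (k + 1) hk).trans_le hε2a)
    have hpi := Real.pi_gt_three
    have g1 := (h1 k (by omega)).2.1
    have e1 := abs_lt.mp (hθ k hk).1
    have e2 := abs_lt.mp (hUc k hk.le)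
    have e2' := abs_lt.mp (hUc (k + 1) hk)
    have e3 := abs_lt.mp hφ
    have e3' := abs_lt.mp hψ
    obtain ⟨t, ht, hpt, _⟩ := hF.2.2.2
    have hdir := hF.2.2.1
    simp only [St.th, St.bk] at hdir hpt
    have q1 : (⟨w (k + 1), U (k + 1), ψ⟩ : St S).pos = p (k + 1) := (hUp (k + 1) hk).symm
    have q2 : (⟨w k, U k, φ⟩ : St S).pos = p k := (hUp k hk.le).symm
    rw [q1, q2] at hpt
    have q3 : p (k + 1) - p k = t • ee (U k + φ) := by rw [hpt]; ring
    have q4 : ‖p (k + 1) - p k‖ = t := by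
      rw [q3, norm_smul, norm_ee, mul_one, Real.norm_eq_abs, abs_of_pos ht]
    have q5 : ee (U k + φ) = ee (θ k) := by
      have q6 := (hθ k hk).2
      rw [q4, q3] at q6
      exact smul_right_injective ℂ ht.ne' q6
    have q6 : U k + φ = θ k := by
      apply eq_of_ee_eq q5
      have e4 : (z k).th = (z k).u + (z k).φ := rfl
      rw [e4] at e1
      rw [abs_lt]
      constructor <;> linarith [e1.1, e1.2, e2.1, e2.2, e3.1, e3.2]
    have q7 : U (k + 1) - ψ = β (k + 1) := by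
      apply eq_of_ee_eq
      · rw [hβe k hk, ← q5, hdir, neg_neg]
      · have e4 : (z (k + 1)).bk = (z (k + 1)).u - (z (k + 1)).φ := rfl
        rw [hβ, e4, abs_lt]
        constructor <;> linarith [e1.1, e1.2, e2'.1, e2'.2, e3'.1, e3'.2]
    have q8 : φ = Ps k := by rw [hPs k hk]; linarith
    have q9 : ψ = Ps (k + 1) := by rw [hPs2 k hk]; linarith
    rw [← q8, ← q9]
    exact ⟨hF, hφ, hψ⟩
  have hφc : ∀ k ≤ n, |Ps k - (z k).φ| < ε1 := by
    intro k hk
    rcases hk.eq_or_lt with rfl | hkn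
    · obtain ⟨j, rfl⟩ : ∃ j, k = j + 1 := ⟨k - 1, by omega⟩
      exact (hfl j (by omega)).2.2
    · exact (hfl k hkn).2.1
  refine ⟨fun k => ⟨w k, U k, Ps k⟩, ⟨⟨fun k hk => ?_, fun k hk => (hfl k hk).1⟩,
    fun k _ => rfl⟩, hU0, hUn, fun k hk => ?_⟩
  · rcases hk.eq_or_lt with rfl | hkn
    · obtain ⟨j, rfl⟩ : ∃ j, k = j + 1 := ⟨k - 1, by omega⟩
      exact (hfl j (by omega)).1.2.1
    · exact (hfl k hkn).1.1
  · have g1 := (h1 k (by omega)).1
    exact ⟨(hUc k hk).trans_le (hε2b.trans g1), (hφc k hk).trans_le g1⟩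

end Pool.Agent.Helper42.DB.PkOPEN
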