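import Pool.Agent.Helper42.DB.Goals3

set_option autoImplicit false

/-!
# Packet GRC of MP_48f005_an (helper65)
-/

namespace Pool.Agent.Helper42.DB.PkGRC

open Set Filter Topology

variable {S : Sys}

/-- A flight determines its end, tangential collisions admitted. -/
lemma det {x y y' : St S} (h : FlG x y) (h' : FlG x y') : y = y' := by
  obtain ⟨hx, hy, he, t, ht, hp, hs⟩ := h
  obtain ⟨_, hy', he', t', ht', hp', hs'⟩ := h'
  have key : ∀ (a b : St S) (r r' : ℝ), a.OkG → 0 < r → a.pos = x.pos + r • ee x.th →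
      (∀ s ∈ Ioo 0 r', x.pos + s • ee x.th ∈ S.Y) → r' ≤ r := by
    intro a b r r' ha hr hpa hsr
    by_contra hcon
    have h1 := hsr r ⟨hr, not_le.mp hcon⟩
    rw [← hpa] at h1
    exact S.out a.i a.u (Ioo_subset_Icc_self ha.1) h1
  have htt : t = t' := le_antisymm (key y' y t' t hy' ht' hp' hs) (key y y' t t' hy ht hp hs')
  have hpos : S.g y.i y.u = S.g y'.i y'.u := by
    have : y.pos = y'.pos := by rw [hp, hp', htt]
    exact this
  obtain ⟨hi, hu⟩ := S.inj y.i y'.i y.u hy.1 y'.u (Ioo_subset_Icc_self hy'.1) hpos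
  have hbk : ee y.bk = ee y'.bk := by
    have h1 : -ee y.bk = -ee y'.bk := by rw [← he, ← he']
    exact neg_injective h1
  have hc := (ee_eq_ee_iff _ _).mp hbk
  have e1 : y.bk - y'.bk = y'.φ - y.φ := by simp only [St.bk]; rw [hu]; ring
  rw [e1] at hc
  have a1 := abs_le.mp hy.2
  have a2 := abs_le.mp hy'.2
  have hpi := Real.pi_pos
  have h2 := (Real.cos_eq_one_iff_of_lt_of_lt (by linarith [a1.1, a1.2, a2.1, a2.2])
    (by linarith [a1.1, a1.2, a2.1, a2.2])).mp hc
  exact St.ext hi hu (by linarith)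

lemma det_all {z z' : ℕ → St S} (h : ∀ k, FlG (z k) (z (k + 1)))
    (h' : ∀ k, FlG (z' k) (z' (k + 1))) {a b : ℕ} (h0 : z a = z' b) :
    ∀ j, z (a + j) = z' (b + j) := by
  intro j
  induction j with
  | zero => exact h0
  | succ j ih =>
    have h1 := h (a + j)
    rw [ih] at h1
    exact det h1 (h' (b + j))

/-- Normalised description of a tangential orbit. -/
structure Pz (n : ℕ) (O : Set (St S)) (z : ℕ → St S) (q : ℕ) : Prop where
  q0 : 0 < q
  qn : q ≤ n
  fl : ∀ k, FlG (z k) (z (k + 1))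
  O : O = range z
  t0 : |(z 0).φ| = Real.pi / 2
  tq : |(z q).φ| = Real.pi / 2
  tk : ∀ k, 0 < k → k < q → |(z k).φ| < Real.pi / 2

lemma exists_Pz {n : ℕ} {O : Set (St S)} (hO : O ∈ TanOrb S n) : ∃ z q, Pz n O z q := by
  obtain ⟨⟨z0, p, hp, hfl0, hper0, hOr⟩, hn, x, hx, hxt⟩ := hO
  rw [hOr] at hx
  obtain ⟨a, rfl⟩ := hx
  have hPer : Function.Periodic z0 p := hper0
  set z : ℕ → St S := fun k => z0 (a + k) with hz
  have hfl : ∀ k, FlG (z k) (z (k + 1)) := fun k => hfl0 (a + k)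
  have hper : ∀ k, z (k + p) = z k := fun k => by
    have := hper0 (a + k)
    rwa [add_assoc] at this
  have hr : range z = range z0 := by
    apply Subset.antisymm
    · rintro _ ⟨k, rfl⟩; exact ⟨a + k, rfl⟩
    · rintro _ ⟨k, rfl⟩
      refine ⟨k + (a * p - a), ?_⟩
      have h1 : a ≤ a * p := Nat.le_mul_of_pos_right a hp
      have h2 : a + (k + (a * p - a)) = k + a * p := by omega
      have h3 := hPer.nat_mul a k
      simp only [hz, h2]
      simpa using h3
  have hex : ∃ q, 0 < q ∧ |(z q).φ| = Real.pi / 2 := by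
    refine ⟨p, hp, ?_⟩
    have h1 := hper 0
    rw [zero_add] at h1
    rw [h1]; simpa [hz] using hxt
  classical
  have hq := Nat.find_spec hex
  have hqmin : ∀ m, m < Nat.find hex → ¬(0 < m ∧ |(z m).φ| = Real.pi / 2) :=
    fun m hm => Nat.find_min hex hm
  set q := Nat.find hex with hqdef
  have hinj : Set.InjOn z (Finset.range q : Set ℕ) := by
    have key : ∀ b c : ℕ, b < c → c < q → z b ≠ z c := by
      intro b c hbc hc he
      have h1 := det_all hfl hfl he (q - c)
      have h2 : c + (q - c) = q := by omega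
      rw [h2] at h1
      refine hqmin (b + (q - c)) (by omega) ⟨by omega, ?_⟩
      rw [h1]; exact hq.2
    intro b hb c hc he
    simp only [Finset.coe_range, Set.mem_Iio] at hb hc
    rcases lt_trichotomy b c with h | h | h
    · exact absurd he (key b c h hc)
    · exact h
    · exact absurd he.symm (key c b h hb)
  have hfin : (range z0).Finite := by
    apply ((Set.finite_Iio p).image z0).subset
    rintro _ ⟨k, rfl⟩
    exact ⟨k % p, Nat.mod_lt _ hp, hPer.map_mod_nat k⟩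
  have hqn : q ≤ n := by
    have h1 : (z '' (Finset.range q : Set ℕ)).ncard = q := by
      rw [hinj.ncard_image, Set.ncard_coe_finset, Finset.card_range]
    have h2 : z '' (Finset.range q : Set ℕ) ⊆ range z0 := by
      rw [← hr]; exact image_subset_range _ _
    have h3 := Set.ncard_le_ncard h2 hfin
    rw [h1, ← hOr] at h3
    exact h3.trans hn
  refine ⟨z, q, ⟨hq.1, hqn, hfl, hOr.trans hr.symm, by simpa [hz] using hxt, hq.2, ?_⟩⟩
  intro k hk0 hkq
  have h1 := (hfl k).1.2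
  exact lt_of_le_of_ne h1 fun h => hqmin k hkq ⟨hk0, h⟩

/-- Finite data. -/
abbrev DD (S : Sys) (n : ℕ) : Type :=
  S.ι × Bool × S.ι × Bool × Option (Σ k : Fin (n + 1), ↥(res (k : ℕ) '' {w | PW S k w}))

/-- The data of a tangential orbit. -/
def RR (S : Sys) (n : ℕ) (O : Set (St S)) (d : DD S n) : Prop :=
  ∃ (z : ℕ → St S) (q : ℕ), Pz n O z q ∧ (z 0).i = d.1 ∧ (d.2.1 = true ↔ 0 < (z 0).φ) ∧
    (z q).i = d.2.2.1 ∧ (d.2.2.2.1 = true ↔ 0 < (z q).φ) ∧
    ((d.2.2.2.2 = none ∧ q = 1) ∨ ∃ s, d.2.2.2.2 = some s ∧ q = (s.1 : ℕ) + 2 ∧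
      ∀ j : Fin ((s.1 : ℕ) + 1), (z (1 + j)).i = s.2.1 j)

lemma exists_RR {n : ℕ} {O : Set (St S)} (hO : O ∈ TanOrb S n) : ∃ d, RR S n O d := by
  classical
  obtain ⟨z, q, h⟩ := exists_Pz hO
  rcases Nat.lt_or_ge q 2 with hq | hq
  · refine ⟨((z 0).i, decide (0 < (z 0).φ), (z q).i, decide (0 < (z q).φ), none), z, q, h, rfl,
      by simp, rfl, by simp, Or.inl ⟨rfl, ?_⟩⟩
    have := h.q0
    omega
  · obtain ⟨k, rfl⟩ : ∃ k, q = k + 2 := ⟨q - 2, by omega⟩
    have hk : k < n + 1 := by have := h.qn; omega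
    have hOk : ∀ j ≤ k, (z (1 + j)).Ok := fun j hj =>
      ⟨(h.fl (1 + j)).1.1, h.tk (1 + j) (by omega) (by omega)⟩
    have hPW : PW S k (fun j => (z (1 + j)).i) := by
      refine ⟨fun j => z (1 + j), ⟨fun j hj => hOk j hj, fun j hj => ?_⟩, fun j _ => rfl⟩
      exact ⟨hOk j hj.le, hOk (j + 1) hj, (h.fl (1 + j)).2.2⟩
    refine ⟨((z 0).i, decide (0 < (z 0).φ), (z (k + 2)).i, decide (0 < (z (k + 2)).φ),
      some ⟨⟨k, hk⟩, ⟨res k fun j => (z (1 + j)).i, ⟨_, hPW, rfl⟩⟩⟩), z, k + 2, h, rfl,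
      by simp, rfl, by simp, Or.inr ⟨_, rfl, rfl, fun j => rfl⟩⟩

lemma sign_eq {a b : ℝ} (ha : |a| = Real.pi / 2) (hb : |b| = Real.pi / 2)
    (h : 0 < a ↔ 0 < b) : a = b := by
  have hpi := Real.pi_pos
  rcases abs_eq (by positivity) |>.mp ha with h1 | h1 <;>
    rcases abs_eq (by positivity) |>.mp hb with h2 | h2
  · rw [h1, h2]
  · exfalso; rw [h1, h2] at h
    have := h.mp (by positivity)
    linarith
  · exfalso; rw [h1, h2] at h
    have := h.mpr (by positivity)
    linarith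
  · rw [h1, h2]

lemma RR_inj (hG : G_GRU S) {n : ℕ} {O O' : Set (St S)} {d : DD S n} (h : RR S n O d)
    (h' : RR S n O' d) : O = O' := by
  obtain ⟨z, q, hz, a1, a2, a3, a4, a5⟩ := h
  obtain ⟨z', q', hz', b1, b2, b3, b4, b5⟩ := h'
  have hqq : q = q' ∧ ∀ k, 0 < k → k < q → (z k).i = (z' k).i := by
    rcases a5 with ⟨c1, c2⟩ | ⟨s, c1, c2, c3⟩
    · rcases b5 with ⟨d1, d2⟩ | ⟨s', d1, _, _⟩
      · exact ⟨by omega, fun k h0 hk => by omega⟩
      · rw [c1] at d1; simp at d1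
    · rcases b5 with ⟨d1, _⟩ | ⟨s', d1, d2, d3⟩
      · rw [c1] at d1; simp at d1
      · rw [c1] at d1
        have hs : s = s' := Option.some.inj d1
        subst hs
        refine ⟨by omega, fun k h0 hk => ?_⟩
        have e1 := c3 ⟨k - 1, by omega⟩
        have e2 := d3 ⟨k - 1, by omega⟩
        have e3 : 1 + (k - 1) = k := by omega
        simp only [e3] at e1 e2
        rw [e1, e2]
  obtain ⟨rfl, hlet⟩ := hqq
  have h0 : z 0 = z' 0 := by
    refine hG q z z' hz.q0 (fun k _ => hz.fl k) (fun k _ => hz'.fl k) ?_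
      (sign_eq hz.t0 hz'.t0 (a2.symm.trans b2)) hz.t0 (sign_eq hz.tq hz'.tq (a4.symm.trans b4))
      hz.tq
    intro k hk
    rcases Nat.eq_zero_or_pos k with rfl | hk0
    · rw [a1, b1]
    rcases hk.eq_or_lt with rfl | hkq
    · rw [a3, b3]
    · exact hlet k hk0 hkq
  have h1 := det_all hz.fl hz'.fl h0
  rw [hz.O, hz'.O]
  congr 1
  funext k
  simpa using h1 k

lemma card_bound {α D : Type*} [Finite D] (T : Set α) (R : α → D → Prop)
    (h1 : ∀ a ∈ T, ∃ d, R a d) (h2 : ∀ a b d, R a d → R b d → a = b) :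
    T.Finite ∧ T.ncard ≤ Nat.card D := by
  classical
  have h3 : ∀ a : T, ∃ d, R a d := fun a => h1 a a.2
  choose f hf using h3
  have hinj : Function.Injective f := by
    intro a b hab
    apply Subtype.ext
    exact h2 a b (f a) (hf a) (hab ▸ hf b)
  have : Finite T := Finite.of_injective f hinj
  refine ⟨Set.toFinite T, ?_⟩
  rw [← Nat.card_coe_set_eq]
  exact Nat.card_le_card_of_injective f hinj

/-- GRC (the hypothesis ARC is not needed). -/
theorem thm (S : Sys) : G_GRU S → G_GRC S := by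
  intro hG n
  have hfin : ∀ k : Fin (n + 1), Finite ↥(res (k : ℕ) '' {w : ℕ → S.ι | PW S k w}) := fun k =>
    inferInstance
  have hc : Nat.card (DD S n) =
      4 * (Fintype.card S.ι) ^ 2 * (1 + ∑ k ∈ Finset.range (n + 1), AW S k) := by
    simp only [Nat.card_prod, Nat.card_eq_fintype_card, Fintype.card_bool, Finite.card_option]
    rw [Nat.card_sigma, Finset.sum_range]
    have : ∀ k : Fin (n + 1), Nat.card ↥(res (k : ℕ) '' {w : ℕ → S.ι | PW S k w}) = AW S k :=
      fun k => Nat.card_coe_set_eq _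
    simp only [this]
    ring
  rw [← hc]
  exact card_bound (TanOrb S n) (RR S n) (fun O hO => exists_RR hO)
    (fun O O' d h h' => RR_inj hG h h')

end Pool.Agent.Helper42.DB.PkGRC
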